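import Pool.Agent.H715Z.CGMain

/-!
Convex geometries with bounded Boolean dimension and unbounded dimension: boxes of a point set with
six linear orders whose Hasse-type digraph is a Burling graph, together with all subsets of boxes
that have at most three points.
-/

namespace Pool.Agent.Results.MP_d1e448_co.ABoolean

open Pool.Agent.H715Z.CG

theorem result : ∃ d : ℕ, ∀ m : ℕ, ∃ (X : Type) (_ : Finite X) (C : Set (Set X)),
    IsConvexGeometry C ∧ bdim C ≤ d ∧ m ≤ dim C :=
  ⟨94, fun m => let ⟨X, h, C, h1, h2, _, h4⟩ := main m; ⟨X, h, C, h1, h2, h4⟩⟩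

end Pool.Agent.Results.MP_d1e448_co.ABoolean
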