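import Pool.Agent.H715Z.CGMain

/-!
Convex geometries with bounded local dimension and unbounded dimension.
-/

namespace Pool.Agent.Results.MP_d1e448_co.BLocal

open Pool.Agent.H715Z.CG

theorem result : ∃ d : ℕ, ∀ m : ℕ, ∃ (X : Type) (_ : Finite X) (C : Set (Set X)),
    IsConvexGeometry C ∧ ldim C ≤ d ∧ m ≤ dim C :=
  ⟨15, fun m => let ⟨X, h, C, h1, _, h3, h4⟩ := main m; ⟨X, h, C, h1, h3, h4⟩⟩

end Pool.Agent.Results.MP_d1e448_co.BLocal
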